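import Pool.Agent.Lib.MP_f73bef_pr.Transfer

namespace Pool.Agent.Results.MP_f73bef_pr.HittingAnglesDiffer

open MeasureTheory Filter Topology Pool.Agent.Lib.MP_f73bef_pr

/-- For `d = 2`, `k = 3` (the unit sphere of a three-dimensional Euclidean space `E` is `S^2`)
the probability that the two hitting angles coincide tends to `0`. -/
theorem result (E : Type) [NormedAddCommGroup E] [InnerProductSpace ℝ E]
    [FiniteDimensional ℝ E] [MeasurableSpace E] [BorelSpace E] (hE : Module.finrank ℝ E = 3) :
    Tendsto (fun n : ℕ => Measure.pi (fun _ : Fin n => unif E)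
      {X | hitAngle (PropP 3) X = hitAngle (PropQ (Metric.sphere (0 : E) 1)) X})
      atTop (𝓝 0) := by
  refine tendsto_of_tendsto_of_tendsto_of_le_of_le tendsto_const_nhds (main' hE)
    (fun _ => zero_le) fun n => measure_mono fun X hX h => ?_
  exact absurd hX h.ne

end Pool.Agent.Results.MP_f73bef_pr.HittingAnglesDiffer
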